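import Pool.Agent.Work.MP_8efaaa_nt.T.Fin
import Pool.Agent.Work.MP_8efaaa_nt.N7.EMain

/-!
# Congruent numbers and the class group of `Q(sqrt(-a))`

Let `a = 7 (mod 8)` be squarefree, `K` a quadratic field containing a square root of `-a`, and `P` a prime ideal
of the ring of integers of `K` that contains `2`. If the index in the class group of `K` of the subgroup
generated by the square of the class of `P` is not divisible by `8`, then `a` is a congruent number. As the class
number is the index of the subgroup generated by the class of `P` times the order of this class, the hypothesis says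
that `8` does not divide the class number, or `4` does not divide the index of the subgroup generated by the class of
`P`.

`IsCongruent` is defined in `Pool.Agent.Work.MP_8efaaa_nt.Defs`.
-/

set_option autoImplicit false

namespace Pool.Agent.Results.MP_8efaaa_nt.ClassGroupCriterion

open NumberField IsDedekindDomain Pool.Agent.Work.MP_8efaaa_nt
open Pool.Agent.Work.MP_8efaaa_nt.T Pool.Agent.Work.MP_787500_nt.HC
open scoped nonZeroDivisors

theorem cl_pr {K : Type*} [Field K] [NumberField K] (v : HeightOneSpectrum (𝓞 K)) :
    cl (pr v) = ClassGroup.mk0 ⟨v.asIdeal, mem_nonZeroDivisors_of_ne_zero v.ne_bot⟩ := by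
  rw [← ClassGroup.mk_mk0 K]
  rfl

theorem index_sq {G : Type*} [Group G] [Finite G] (g : G)
    (h : ¬ 8 ∣ (Subgroup.zpowers (g ^ 2)).index) :
    ¬ 8 ∣ Nat.card G ∨ ¬ 4 ∣ (Subgroup.zpowers g).index := by
  by_contra hc
  push Not at hc
  obtain ⟨h8, h4⟩ := hc
  apply h
  have e1 := (Subgroup.zpowers g).index_mul_card
  have e2 := (Subgroup.zpowers (g ^ 2)).index_mul_card
  rw [Nat.card_zpowers] at e1 e2
  have ho : 0 < orderOf g := orderOf_pos g
  rcases Nat.even_or_odd (orderOf g) with he | hod
  · obtain ⟨k, hk⟩ := he
    have hk2 : orderOf g = 2 * k := by omega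
    have hk0 : 0 < k := by omega
    have e3 : orderOf (g ^ 2) = k := by
      rw [orderOf_pow, hk2, Nat.gcd_mul_right_left, Nat.mul_div_cancel_left _ (by norm_num)]
    obtain ⟨m, hm⟩ := h4
    refine ⟨m, ?_⟩
    rw [e3] at e2
    rw [hk2, hm] at e1
    have : (Subgroup.zpowers (g ^ 2)).index * k = 8 * m * k := by
      rw [e2, ← e1]; ring
    exact Nat.eq_of_mul_eq_mul_right hk0 this
  · have e3 : orderOf (g ^ 2) = orderOf g := by
      rw [orderOf_pow, (Nat.coprime_two_right.2 hod).gcd_eq_one, Nat.div_one]
    rw [e3] at e2
    have hc : Nat.Coprime 8 (orderOf g) := by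
      have : Nat.Coprime (2 ^ 3) (orderOf g) := Nat.Coprime.pow_left 3 (Nat.coprime_two_left.2 hod)
      simpa using this
    rw [← e2] at h8
    exact hc.dvd_of_dvd_mul_right h8

/-- Let `a = 7 (mod 8)` be squarefree, let `K` be the quadratic field generated by a square root `s` of `-a`,
and let `v` be a prime ideal of `K` that contains `2`. If `8` does not divide the index in the class group of `K`
of the cyclic subgroup generated by the square of the class of `v`, then `a` is a congruent number. -/
theorem result {K : Type*} [Field K] [NumberField K] (hK : Module.finrank ℚ K = 2)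
    (a : ℕ) (ha : Squarefree a) (ha' : a % 8 = 7) (s : K) (hs : s ^ 2 = -(a : K))
    (v : HeightOneSpectrum (𝓞 K)) (hv : (2 : 𝓞 K) ∈ v.asIdeal)
    (h : ¬ 8 ∣ (Subgroup.zpowers
      (ClassGroup.mk0 ⟨v.asIdeal, mem_nonZeroDivisors_of_ne_zero v.ne_bot⟩ ^ 2)).index) :
    IsCongruent a := by
  have hb : Base K a s := ⟨hK, hs, ha, ha'⟩
  rcases index_sq _ h with h | h
  · exact N7.main7 hb h
  · refine T.main (s := s) hb hv ?_
    rwa [cl_inv, Subgroup.zpowers_inv, cl_pr]

end Pool.Agent.Results.MP_8efaaa_nt.ClassGroupCriterion
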