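import Pool.Agent.Work.MP_8efaaa_nt.R.Main

/-!
# Congruent numbers `a = 5 (mod 8)` and the class group of `Q(sqrt(-a))`

Let `a = 5 (mod 8)` be squarefree and let `K` be a quadratic field with a square root `s` of `-a`. If the class
number of `K` is not divisible by `8`, or more generally if there is an ideal `c` of `K` of norm `1 (mod 8)` such
that `c ^ (h / 2)` is not generated by an element `x + 4 y s` with integers `x`, `y` such that `x + 4 y` is `1` or
`7` modulo `8`, where `h` is the class number of `K`, then `a` is a congruent number.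

`IsCongruent` is defined in `Pool.Agent.Work.MP_8efaaa_nt.Defs`.
-/

set_option autoImplicit false

namespace Pool.Agent.Work.MP_8efaaa_nt.Withdrawn.ClassGroupRamified

open NumberField Pool.Agent.Work.MP_8efaaa_nt Pool.Agent.Work.MP_8efaaa_nt.R

/-- Let `a = 5 (mod 8)` be squarefree, let `K` be the quadratic field generated by a square root `s` of `-a`, and
let `h` be its class number. If `8` does not divide `h`, or if there is an ideal `c` of norm `1 (mod 8)` such that
`c ^ (h / 2)` has no generator `x + 4 y s` with `x + 4 y` equal to `1` or `7` modulo `8`, then `a` is a congruent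
number. -/
theorem result {K : Type*} [Field K] [NumberField K] (hK : Module.finrank ℚ K = 2)
    (a : ℕ) (ha : Squarefree a) (ha' : a % 8 = 5) (s : K) (hs : s ^ 2 = -(a : K))
    (h : ¬ 8 ∣ classNumber K ∨ ∃ c : Ideal (𝓞 K), Ideal.absNorm c % 8 = 1 ∧
      ∀ (x y : ℤ) (δ : 𝓞 K), (x + 4 * y) % 8 = 1 ∨ (x + 4 * y) % 8 = 7 →
        algebraMap (𝓞 K) K δ = x + 4 * y * s → c ^ (classNumber K / 2) ≠ Ideal.span {δ}) :
    IsCongruent a := by
  have hb : Base5 K a s := ⟨hK, hs, ha, ha'⟩
  rcases h with h | ⟨c, hc, h⟩
  · exact main8 hb h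
  · refine main5 hb hc fun x y δ hδ he => ?_
    unfold e8
    rw [if_neg]
    intro h1
    exact h x y δ h1 hδ he

end Pool.Agent.Work.MP_8efaaa_nt.Withdrawn.ClassGroupRamified
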