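import Mathlib
import Pool.Agent.Work.MP_8efaaa_nt.Defs
import Pool.Agent.Work.MP_8efaaa_nt.Transfer

set_option autoImplicit false

open Pool.Agent.Work.MP_8efaaa_nt

/-- From a squarefree congruent number `c` to congruent numbers `2 * c * b`, where all prime
factors of `b` are `1` modulo `2 ^ k` and split in `ℚ(√c)`. -/
theorem Pool.Agent.Work.MP_8efaaa_nt.Withdrawn.DoublingTransfer.result
    (c : ℕ) (hc : Squarefree c) (hcong : IsCongruent c) (k : ℕ) :
    ∃ b : ℕ, 1 < b ∧ Squarefree b ∧ Nat.Coprime b (2 * c) ∧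
      (∀ q : ℕ, q.Prime → q ∣ b → 2 ^ k ∣ q - 1 ∧ IsSquare ((c : ℕ) : ZMod q)) ∧
      IsCongruent (2 * c * b) :=
  transfer c hc hcong k
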