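import Pool.Agent.Work.MP_8efaaa_nt.U.Main

set_option autoImplicit false

namespace Pool.Agent.Results.MP_8efaaa_nt.LinnikAlmostPrimes

open Pool.Agent.Work.MP_8efaaa_nt

/-- There is a constant `C` such that for every modulus `M ≥ 1`, every residue `r` with
`g = gcd(r, M)` squarefree and every `x ≥ C * M ^ 25` there are at least
`(x ^ 33 / (C * M ^ 330)) ^ (1 / 100)` squarefree congruent numbers `n ≤ x` with `n ≡ r (mod M)`
for which `n / g` has at most `681` prime factors, each of them at least `x ^ (1 / 25000)`.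
(`IsCongruent` is the problem's definition of a congruent number.) -/
theorem result : ∃ C : ℕ, ∀ M r x : ℕ, 0 < M → Squarefree (Nat.gcd r M) → C * M ^ 25 ≤ x →
    ∃ S : Finset ℕ, x ^ 33 ≤ C * M ^ 330 * S.card ^ 100 ∧
      ∀ n ∈ S, n ≤ x ∧ n ≡ r [MOD M] ∧ Squarefree n ∧ IsCongruent n ∧
        (n / Nat.gcd r M).primeFactors.card ≤ 681 ∧
        ∀ q, q.Prime → q ∣ n / Nat.gcd r M → x ≤ q ^ 25000 :=
  linnik

end Pool.Agent.Results.MP_8efaaa_nt.LinnikAlmostPrimes
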