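import Pool.Agent.Work.MP_8efaaa_nt.N5.Fin8

/-!
# Congruent numbers `a = 5 (mod 8)` and the narrow class number of `Q(sqrt a)`

Let `a = 5 (mod 8)` be squarefree and let `F` be the real quadratic field `Q(sqrt a)`. If `8` does not divide the
narrow class number of `F`, then `a` is a congruent number. The narrow class number of `F` is the class number if `F`
has a unit of norm `-1`, and twice the class number otherwise; so the hypothesis says that `4` does not divide the class
number of `F`, or that `8` does not divide it and `F` has a unit of norm `-1`.

`IsCongruent` is defined in `Pool.Agent.Work.MP_8efaaa_nt.Defs`.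
-/

set_option autoImplicit false

namespace Pool.Agent.Results.MP_8efaaa_nt.NarrowClassNumber

open NumberField Pool.Agent.Work.MP_8efaaa_nt

/-- Let `a = 5 (mod 8)` be squarefree and let `F` be the quadratic field generated by a square root `f` of `a`. If
`4` does not divide the class number of `F`, or if `8` does not divide it and `F` has a unit of norm `-1`, then `a` is a
congruent number. -/
theorem result {F : Type*} [Field F] [NumberField F] (hF : Module.finrank ℚ F = 2)
    (a : ℕ) (ha : Squarefree a) (ha' : a % 8 = 5) (f : F) (hf : f ^ 2 = (a : F))
    (h : ¬ 4 ∣ classNumber F ∨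
      (¬ 8 ∣ classNumber F ∧ ∃ u : (𝓞 F)ˣ, Algebra.norm ℤ (u : 𝓞 F) = -1)) :
    IsCongruent a :=
  N5.final8 ha ha' hF hf h

end Pool.Agent.Results.MP_8efaaa_nt.NarrowClassNumber
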