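import Mathlib
import Pool.Agent.Work.MP_8efaaa_nt.Defs
import Pool.Agent.Work.MP_8efaaa_nt.Propagate

set_option autoImplicit false

open Pool.Agent.Work.MP_8efaaa_nt

/-- Every squarefree congruent number `c` propagates inside its own residue class modulo `8`
through multipliers `b > 1` all of whose prime factors are `1` modulo `4 * l` and split in
`ℚ(√c)`, for arbitrarily large primes `l`. -/
theorem Pool.Agent.Work.MP_8efaaa_nt.Withdrawn.Propagation.result
    (c : ℕ) (hc : Squarefree c) (hcong : IsCongruent c) (N : ℕ) :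
    ∃ l : ℕ, N < l ∧ l.Prime ∧ ∃ b : ℕ, 1 < b ∧ Squarefree b ∧ b % 8 = 1 ∧ Nat.Coprime b c ∧
      (∀ q : ℕ, q.Prime → q ∣ b → q % (4 * l) = 1 ∧ IsSquare ((c : ℕ) : ZMod q)) ∧
      IsCongruent (c * b) :=
  propagate c hc hcong N
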