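import Pool.Agent.Work.MP_8efaaa_nt.SR.Main

/-!
# Congruent numbers `a = 5, 7 (mod 8)` with at most three prime factors and 2-Selmer rank one

`monsky a` is the matrix of Monsky (appendix of Heath-Brown, The size of Selmer groups for the congruent number problem
II), over the field with two elements, of size `2 k`, where `k` is the number of the prime factors of `a`. The
2-Selmer rank of `y ^ 2 = x ^ 3 - a ^ 2 x` modulo torsion is `2 k` minus its rank.
`IsCongruent` is defined in `Pool.Agent.Work.MP_8efaaa_nt.Defs`, `monsky` in `Pool.Agent.Work.MP_8efaaa_nt.SR.Defs`.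
-/

set_option autoImplicit false

namespace Pool.Agent.Results.MP_8efaaa_nt.SelmerRankOne

open Pool.Agent.Work.MP_8efaaa_nt

/-- Let `a = 5` or `7 (mod 8)` be squarefree with `k ≤ 3` prime factors. If the matrix of Monsky of `a` has rank
`2 k - 1`, then `a` is a congruent number. -/
theorem result (a : ℕ) (ha : Squarefree a) (h8 : a % 8 = 5 ∨ a % 8 = 7)
    (hk : a.primeFactors.card ≤ 3)
    (hM : (SR.monsky a).rank + 1 = 2 * a.primeFactors.card) : IsCongruent a :=
  SR.main_sr ha h8 hk hM

end Pool.Agent.Results.MP_8efaaa_nt.SelmerRankOne
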