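import Pool.Agent.Work.MP_8efaaa_nt.U.QReal

set_option autoImplicit false

namespace Pool.Agent.Work.MP_8efaaa_nt.Withdrawn.SmallAlmostPrime

open Pool.Agent.Work.MP_8efaaa_nt

/-- For every `ε ∈ (0, 1]` there is a real number `K` such that for every squarefree `a` there is a
squarefree `b ≡ 1 (mod 8)` coprime to `a`, of size at most `K * a ^ (3 / 2 + ε)`, with at most
`40000 / ε` prime factors, each prime factor `q` being so large that `a ≤ K * q ^ (20000 / ε)`,
for which `a * b` is a congruent number.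
(`IsCongruent` is the problem's definition of a congruent number.) -/
theorem result (ε : ℝ) (hε : 0 < ε) (hε1 : ε ≤ 1) : ∃ K : ℝ, ∀ a : ℕ, Squarefree a →
    ∃ b : ℕ, Squarefree b ∧ b % 8 = 1 ∧ Nat.Coprime a b ∧ (b : ℝ) ≤ K * (a : ℝ) ^ (3 / 2 + ε) ∧
      (b.primeFactors.card : ℝ) ≤ 40000 / ε ∧
      (∀ q : ℕ, q.Prime → q ∣ b → (a : ℝ) ≤ K * (q : ℝ) ^ (20000 / ε)) ∧ IsCongruent (a * b) :=
  quad_real ε hε hε1

end Pool.Agent.Work.MP_8efaaa_nt.Withdrawn.SmallAlmostPrime
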