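import Mathlib
import Pool.Agent.Work.MP_8efaaa_nt.Defs
import Pool.Agent.Work.MP_8efaaa_nt.Quartic

set_option autoImplicit false

open Pool.Agent.Work.MP_8efaaa_nt

/-- Every `a > 0` becomes congruent after multiplication by squarefree numbers `b > 1` all of whose
prime factors are large and special: they are `1` modulo `4`, have `a` as a square, and any
prescribed trinomial `X ^ 4 + p X + r` has a root modulo them; one can also ask that they be `1`
modulo `16`, or `20`, or `24`. -/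
theorem Pool.Agent.Work.MP_8efaaa_nt.Withdrawn.SpecialMultipliers.result
    (a : ℕ) (ha : 0 < a) (N : ℕ) :
    (∀ p r : ℤ, ∃ b : ℕ, 1 < b ∧ Squarefree b ∧
      (∀ q : ℕ, q.Prime → q ∣ b → N < q ∧ q % 4 = 1 ∧ IsSquare ((a : ℕ) : ZMod q) ∧
        ∃ x : ZMod q, x ^ 4 + ((p : ℤ) : ZMod q) * x + ((r : ℤ) : ZMod q) = 0) ∧
      IsCongruent (a * b)) ∧
    (∀ μ ∈ ({16, 20, 24} : Finset ℕ), ∃ b : ℕ, 1 < b ∧ Squarefree b ∧
      (∀ q : ℕ, q.Prime → q ∣ b → N < q ∧ q % μ = 1 ∧ IsSquare ((a : ℕ) : ZMod q)) ∧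
      IsCongruent (a * b)) :=
  special_all a ha N
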